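import Pool.Agent.H16.FC.Stm

/-! # FC-CNT: few coefficient vectors have a `k`-full value at `-1` -/

set_option autoImplicit false

namespace Pool.Agent.H16.FC.CNTF

open Finset Pool.Agent.H16.LP

/-- the value at `-1` -/
private def vl {d : ℕ} (a : Fin (d + 1) → ℤ) : ℤ := ∑ i : Fin (d + 1), a i * (-1) ^ (i : ℕ)

/-- the shifted vector with the value at the last place -/
private def ph {d : ℕ} (a : Fin (d + 1) → ℤ) : Fin (d + 1) → ℤ :=
  Fin.snoc (α := fun _ => ℤ) (fun i : Fin d => a i.succ) (vl a)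

private theorem ph_last {d : ℕ} (a : Fin (d + 1) → ℤ) : ph a (Fin.last d) = vl a := by
  unfold ph
  exact Fin.snoc_last _ _

private theorem ph_cast {d : ℕ} (a : Fin (d + 1) → ℤ) (i : Fin d) :
    ph a i.castSucc = a i.succ := by
  unfold ph
  exact Fin.snoc_castSucc (α := fun _ => ℤ) _ _ _

private theorem ph_inj {d : ℕ} : Function.Injective (ph (d := d)) := by
  intro a b hab
  have h1 : ∀ i : Fin d, a i.succ = b i.succ := fun i => by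
    rw [← ph_cast a i, ← ph_cast b i, hab]
  have h2 : vl a = vl b := by rw [← ph_last a, ← ph_last b, hab]
  unfold vl at h2
  rw [Fin.sum_univ_succ, Fin.sum_univ_succ (f := fun i => b i * (-1) ^ (i : ℕ))] at h2
  have h3 : ∑ i : Fin d, a i.succ * (-1) ^ ((i.succ : Fin (d + 1)) : ℕ) =
      ∑ i : Fin d, b i.succ * (-1) ^ ((i.succ : Fin (d + 1)) : ℕ) :=
    sum_congr rfl fun i _ => by rw [h1 i]
  rw [h3] at h2
  have h4 : a 0 = b 0 := by simpa using h2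
  funext i
  exact Fin.cases h4 h1 i

private theorem vl_le {d H : ℕ} {a : Fin (d + 1) → ℤ} (h : ∀ i, |a i| ≤ H) :
    |vl a| ≤ (((d + 1) * H : ℕ) : ℤ) := by
  unfold vl
  refine (abs_sum_le_sum_abs _ _).trans ?_
  calc ∑ i : Fin (d + 1), |a i * (-1) ^ (i : ℕ)| ≤ ∑ _i : Fin (d + 1), (H : ℤ) := by
        refine sum_le_sum fun i _ => ?_
        rw [abs_mul, abs_pow, abs_neg, abs_one, one_pow, mul_one]
        exact h i
    _ = _ := by
        rw [sum_const, card_univ, Fintype.card_fin, nsmul_eq_mul]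
        push_cast
        ring

private theorem rad_le {m k N : ℕ} {A : ℤ} (hk : 1 ≤ k) (hA : A ≠ 0)
    (h : ∀ q : ℕ, q.Prime → ¬ q ∣ m → (q : ℤ) ∣ A → (q : ℤ) ^ k ∣ A) (hN : |A| ≤ (N : ℤ)) :
    (rad m A.natAbs : ℝ) ≤ 1 * (N : ℝ) ^ (1 / (k : ℝ)) := by
  have h1 : ((rad m A.natAbs : ℕ) : ℤ) ^ k ∣ A := by
    unfold rad
    rw [Nat.cast_prod, ← prod_pow]
    refine Finset.prod_dvd_of_coprime ?_ ?_
    · intro p hp q hq hne
      have hp' := mem_filter.1 (mem_coe.1 hp)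
      have hq' := mem_filter.1 (mem_coe.1 hq)
      have h2 : IsCoprime (p : ℤ) (q : ℤ) := Nat.isCoprime_iff_coprime.2
        ((Nat.coprime_primes (Nat.prime_of_mem_primeFactors hp'.1)
          (Nat.prime_of_mem_primeFactors hq'.1)).2 hne)
      exact h2.pow
    · intro q hq
      have hq' := mem_filter.1 hq
      exact h q (Nat.prime_of_mem_primeFactors hq'.1) hq'.2
        (Int.natCast_dvd.2 (Nat.dvd_of_mem_primeFactors hq'.1))
  have h2 : ((rad m A.natAbs : ℕ) : ℤ) ^ k ≤ N :=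
    (Int.le_of_dvd (abs_pos.2 hA) ((dvd_abs _ _).2 h1)).trans hN
  have h3 : ((rad m A.natAbs : ℕ) : ℝ) ^ k ≤ N := by exact_mod_cast h2
  rw [one_mul, one_div]
  calc ((rad m A.natAbs : ℕ) : ℝ) = (((rad m A.natAbs : ℕ) : ℝ) ^ k) ^ ((k : ℝ)⁻¹) :=
        (Real.pow_rpow_inv_natCast (Nat.cast_nonneg _) (by omega)).symm
    _ ≤ (N : ℝ) ^ ((k : ℝ)⁻¹) := Real.rpow_le_rpow (by positivity) h3 (by positivity)

/-- FC-CNT, the stronger form -/
theorem main : S_CNTF2 := by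
  intro hcnt d k m ε hk hm hε
  obtain ⟨C, hC, hH⟩ := hcnt d m (1 / (k : ℝ)) ε 1 hm (by positivity) hε le_rfl
  refine ⟨C * ((d + 1 : ℕ) : ℝ) ^ ((d : ℝ) + 1 / (k : ℝ) + ε), by positivity, fun H h1 => ?_⟩
  obtain ⟨hf, hc⟩ := hH ((d + 1) * H) (Nat.mul_pos (Nat.succ_pos d) h1)
  obtain ⟨S, hS⟩ : ∃ S : Set (Fin (d + 1) → ℤ), S = {a : Fin (d + 1) → ℤ | (∀ i, |a i| ≤ H) ∧
      ∑ i : Fin (d + 1), a i * (-1) ^ (i : ℕ) ≠ 0 ∧
      ∀ q : ℕ, q.Prime → ¬ q ∣ m → (q : ℤ) ∣ ∑ i : Fin (d + 1), a i * (-1) ^ (i : ℕ) →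
        (q : ℤ) ^ k ∣ ∑ i : Fin (d + 1), a i * (-1) ^ (i : ℕ)} := ⟨_, rfl⟩
  rw [← hS]
  obtain ⟨U, hU⟩ : ∃ U : Set (Fin (d + 1) → ℤ), U = {a : Fin (d + 1) → ℤ |
      (∀ i, |a i| ≤ (((d + 1) * H : ℕ) : ℤ)) ∧ a (Fin.last d) ≠ 0 ∧
      (rad m (a (Fin.last d)).natAbs : ℝ) ≤ 1 * (((d + 1) * H : ℕ) : ℝ) ^ (1 / (k : ℝ))} :=
    ⟨_, rfl⟩
  rw [← hU] at hf hc
  have hsub : ph '' S ⊆ U := by
    rintro _ ⟨a, ha, rfl⟩
    rw [hS] at ha
    obtain ⟨a1, a2, a3⟩ := ha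
    have hv : |vl a| ≤ (((d + 1) * H : ℕ) : ℤ) := vl_le a1
    rw [hU]
    refine ⟨fun i => ?_, ?_, ?_⟩
    · refine Fin.lastCases ?_ (fun j => ?_) i
      · rw [ph_last]
        exact hv
      · rw [ph_cast]
        refine (a1 _).trans ?_
        have : H ≤ (d + 1) * H := Nat.le_mul_of_pos_left H (Nat.succ_pos d)
        exact_mod_cast this
    · rw [ph_last]
      exact a2
    · rw [ph_last]
      exact rad_le hk a2 a3 hv
  have hfin : (ph '' S).Finite := hf.subset hsub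
  refine ⟨hfin.of_finite_image ph_inj.injOn, ?_⟩
  have h2 : S.ncard = (ph '' S).ncard := (Set.ncard_image_of_injective S ph_inj).symm
  have h3 : (ph '' S).ncard ≤ U.ncard := Set.ncard_le_ncard hsub hf
  have h4 : ((ph '' S).ncard : ℝ) ≤ U.ncard := by exact_mod_cast h3
  rw [h2]
  refine h4.trans (hc.trans (le_of_eq ?_))
  rw [Nat.cast_mul, Real.mul_rpow (by positivity) (by positivity)]
  ring

/-- FC-CNT, the weaker form -/
theorem main1 : S_CNTF := by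
  intro hcnt d k ε hk hε
  obtain ⟨C, hC, hH⟩ := main hcnt d k 1 ε hk one_pos hε
  refine ⟨C, hC, fun H h1 => ?_⟩
  obtain ⟨h2, h3⟩ := hH H h1
  have e : {a : Fin (d + 1) → ℤ | (∀ i, |a i| ≤ H) ∧
      ∑ i : Fin (d + 1), a i * (-1) ^ (i : ℕ) ≠ 0 ∧
      ∀ q : ℕ, q.Prime → (q : ℤ) ∣ ∑ i : Fin (d + 1), a i * (-1) ^ (i : ℕ) →
        (q : ℤ) ^ k ∣ ∑ i : Fin (d + 1), a i * (-1) ^ (i : ℕ)} =
      {a : Fin (d + 1) → ℤ | (∀ i, |a i| ≤ H) ∧
      ∑ i : Fin (d + 1), a i * (-1) ^ (i : ℕ) ≠ 0 ∧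
      ∀ q : ℕ, q.Prime → ¬ q ∣ 1 → (q : ℤ) ∣ ∑ i : Fin (d + 1), a i * (-1) ^ (i : ℕ) →
        (q : ℤ) ^ k ∣ ∑ i : Fin (d + 1), a i * (-1) ^ (i : ℕ)} := by
    ext a
    refine and_congr_right fun _ => and_congr_right fun _ => ?_
    refine ⟨fun h q hq _ => h q hq, fun h q hq => h q hq ?_⟩
    intro hd
    exact hq.one_lt.ne' (Nat.dvd_one.1 hd)
  rw [e]
  exact ⟨h2, h3⟩

end Pool.Agent.H16.FC.CNTF
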