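import Pool.Agent.H16.FC.Stm

/-! # Project FC, stub LFIN (helper67) -/

set_option autoImplicit false

namespace Pool.Agent.H16.FC.LFIN

open Polynomial NumberField IsDedekindDomain Pool.Agent.H16.LP Pool.Agent.H16.FC

/-- the coefficient vector of `b * j` -/
def cf (d : ℕ) (a : Fin (d + 1) → ℤ) (b : ℤ) (u : ℤ) : Fin (d + 1) → ℤ :=
  Fin.snoc (α := fun _ => ℤ) (fun i : Fin d => a i.castSucc * b ^ (d - 1 - (i : ℕ))) u

lemma rt_mul (K : Type) [Field K] [NumberField K] (d : ℕ) (a : Fin (d + 1) → ℤ) (j : K) (b u : ℤ)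
    (h : Rt K d a j) (hd : 1 ≤ d) (hb : b ≠ 0) (ha : a (Fin.last d) = u * b) :
    Rt K d (cf d a b u) ((b : K) * j) := by
  have hbK : (b : K) ≠ 0 := by exact_mod_cast hb
  refine ⟨h.deg, ?_, ?_⟩
  · rw [eq_top_iff, ← h.gen, IntermediateField.adjoin_le_iff]
    intro x hx
    rw [Set.mem_singleton_iff] at hx
    subst hx
    have h1 : (b : K) * x ∈ IntermediateField.adjoin ℚ {(b : K) * x} :=
      IntermediateField.mem_adjoin_simple_self ℚ _
    have h2 : (b : K) ∈ IntermediateField.adjoin ℚ {(b : K) * x} := intCast_mem _ b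
    have h3 := mul_mem (inv_mem h2) h1
    rwa [inv_mul_cancel_left₀ hbK] at h3
  · have hr := h.root
    rw [Fin.sum_univ_castSucc] at hr ⊢
    have h1 : ∀ i : Fin d, ((cf d a b u i.castSucc : ℤ) : K) * ((b : K) * j) ^ ((i.castSucc : Fin (d + 1)) : ℕ) =
        (b : K) ^ (d - 1) * (((a i.castSucc : ℤ) : K) * j ^ ((i.castSucc : Fin (d + 1)) : ℕ)) := by
      intro i
      have hi : d - 1 = (d - 1 - (i : ℕ)) + (i : ℕ) := by have := i.isLt; omega
      simp only [cf, Fin.snoc_castSucc, Fin.val_castSucc]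
      conv_rhs => rw [hi, pow_add]
      rw [mul_pow]
      push_cast
      ring
    rw [Finset.sum_congr rfl fun i _ => h1 i, ← Finset.mul_sum]
    have h2 : ((cf d a b u (Fin.last d) : ℤ) : K) * ((b : K) * j) ^ ((Fin.last d : Fin (d + 1)) : ℕ) =
        (b : K) ^ (d - 1) * (((a (Fin.last d) : ℤ) : K) * j ^ ((Fin.last d : Fin (d + 1)) : ℕ)) := by
      have hi : d = (d - 1) + 1 := by omega
      simp only [cf, Fin.snoc_last, Fin.val_last, ha]
      rw [mul_pow]
      have h3 : (b : K) ^ d = (b : K) ^ (d - 1) * b := by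
        conv_lhs => rw [hi, pow_succ]
      rw [h3]
      push_cast
      ring
    rw [h2, ← mul_add, hr, mul_zero]

theorem main : S_LFIN := by
  intro hN hF hP K _ _ d a j q t b hrt hd hq ha hb v hv
  have hb0 : b ≠ 0 := by
    rintro rfl
    exact hb (dvd_zero _)
  have hq0 : 0 < q := hq.pos
  have hu : ((q : ℤ) ^ t) ≠ 0 := by positivity
  by_cases hj : j = 0
  · rw [hj, map_zero]; positivity
  have hbK : (b : K) ≠ 0 := by exact_mod_cast hb0
  have hbj : (b : K) * j ≠ 0 := mul_ne_zero hbK hj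
  have h1 := rt_mul K d a j b ((q : ℤ) ^ t) hrt hd hb0 ha
  have hlast : cf d a b ((q : ℤ) ^ t) (Fin.last d) = (q : ℤ) ^ t := by simp [cf]
  have h2 := hN K d _ _ h1 (by
    intro h
    have := congrFun h (Fin.last d)
    rw [hlast] at this
    exact hu this)
  have h3 := hF K _ _ (by rw [hlast]; exact hu) h2
  rw [hlast] at h3
  -- a single factor
  have hfin : (Function.mulSupport fun w : FinitePlace K => max (w ((b : K) * j)) 1).Finite := by
    refine (FinitePlace.hasFiniteMulSupport hbj).subset ?_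
    intro w hw hw'
    apply hw
    simp only at hw' ⊢
    rw [hw', max_self]
  have h4 : max (FinitePlace.mk v ((b : K) * j)) 1 ≤ ∏ᶠ w : FinitePlace K, max (w ((b : K) * j)) 1 := by
    classical
    rw [finprod_eq_prod_of_mulSupport_subset (s := insert (FinitePlace.mk v) hfin.toFinset)]
    · rw [← Finset.mul_prod_erase _ _ (Finset.mem_insert_self _ _)]
      have h5 : (1 : ℝ) ≤ ∏ w ∈ (insert (FinitePlace.mk v) hfin.toFinset).erase (FinitePlace.mk v),
          max (w ((b : K) * j)) 1 := by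
        calc (1 : ℝ) = ∏ w ∈ (insert (FinitePlace.mk v) hfin.toFinset).erase (FinitePlace.mk v), (1 : ℝ) := by simp
          _ ≤ _ := Finset.prod_le_prod (fun _ _ => zero_le_one) (fun _ _ => le_max_right _ _)
      exact le_mul_of_one_le_right (le_trans zero_le_one (le_max_right _ _)) h5
    · intro w hw
      rw [Finset.coe_insert, hfin.coe_toFinset]
      exact Set.mem_insert_of_mem _ hw
  have h6 : FinitePlace.mk v (b : K) = 1 := by
    have h7 := hP K v q b.natAbs hq hv (by
      intro h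
      exact hb (Int.natCast_dvd.2 h))
    rcases Int.natAbs_eq b with h | h
    · rw [h, Int.cast_natCast]; exact h7
    · rw [h, Int.cast_neg, map_neg_eq_map, Int.cast_natCast]
      exact h7
  calc FinitePlace.mk v j = FinitePlace.mk v ((b : K) * j) := by rw [map_mul, h6, one_mul]
    _ ≤ max (FinitePlace.mk v ((b : K) * j)) 1 := le_max_left _ _
    _ ≤ _ := h4
    _ ≤ _ := h3
    _ = (q : ℝ) ^ t := by
      push_cast
      exact abs_of_nonneg (by positivity)

end Pool.Agent.H16.FC.LFIN
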