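import Pool.Agent.H16.FC.LOC

/-!
# Stub FC-LOC3 (helper61): the local computation on the Fermat curve, all odd exponents
-/

set_option autoImplicit false

namespace Pool.Agent.H16.FC.LOC3

open Polynomial NumberField IsDedekindDomain Pool.Agent.H16.LP Pool.Agent.H16.FC.LOC

variable {K : Type} [Field K] [NumberField K]

theorem one_sub_le (w : FinitePlace K) (t : K) (ht : w t < 1) : w (1 - t) ≤ 1 := by
  have h := FinitePlace.add_le w 1 (-t)
  rw [← sub_eq_add_neg, map_neg_eq_map, map_one] at h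
  exact h.trans (max_le le_rfl ht.le)

theorem geom_le (w : FinitePlace K) (t : K) (ht : w t < 1) (m : ℕ) :
    w (∑ i ∈ Finset.range m, (1 - t) ^ i) ≤ 1 := by
  refine v_sum w _ _ 1 zero_le_one fun i _ => ?_
  rw [map_pow]
  exact pow_le_one₀ (apply_nonneg _ _) (one_sub_le w t ht)

theorem one_sub_pow (w : FinitePlace K) (t : K) (ht : w t < 1) (m : ℕ) : w (1 - (1 - t) ^ m) ≤ w t := by
  rw [← mul_neg_geom_sum (1 - t) m, sub_sub_cancel, map_mul]
  calc w t * _ ≤ w t * 1 := mul_le_mul_of_nonneg_left (geom_le w t ht m) (apply_nonneg _ _)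
    _ = w t := mul_one _

/-- exponents prime to `q` do not change the order -/
theorem stepA (w : FinitePlace K) (t : K) (ht : w t < 1) (m : ℕ) (hm : w (m : K) = 1) :
    w (1 - (1 - t) ^ m) = w t := by
  rw [← mul_neg_geom_sum (1 - t) m, sub_sub_cancel, map_mul]
  have h1 : ∑ i ∈ Finset.range m, (1 - t) ^ i = (∑ i ∈ Finset.range m, ((1 - t) ^ i - 1)) + (m : K) := by
    rw [Finset.sum_sub_distrib]
    simp
  have h2 : w (∑ i ∈ Finset.range m, ((1 - t) ^ i - 1)) ≤ w t := by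
    refine v_sum w _ _ _ (apply_nonneg _ _) fun i _ => ?_
    rw [← map_neg_eq_map, neg_sub]
    exact one_sub_pow w t ht i
  rw [h1, v_eq w _ _ (by rw [hm]; exact h2.trans_lt ht), hm, mul_one]

/-- the exponent `q` -/
theorem stepB (v : HeightOneSpectrum (𝓞 K)) (q : ℕ) (hq : q.Prime) (hqd : Module.finrank ℚ K + 2 < q)
    (hqv : ((q : ℕ) : 𝓞 K) ∈ v.asIdeal) (t : K) (ht0 : t ≠ 0) (ht : FinitePlace.mk v t < 1) :
    FinitePlace.mk v (1 - (1 - t) ^ q) = FinitePlace.mk v (q : K) * FinitePlace.mk v t := by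
  have hN : (1 : ℝ) < (Ideal.absNorm v.asIdeal : ℝ) := by
    exact_mod_cast NumberField.HeightOneSpectrum.one_lt_absNorm v
  have hqN : (q : ℝ) ≤ (Ideal.absNorm v.asIdeal : ℝ) := by exact_mod_cast le_norm v q hq hqv
  have hq3 : 3 ≤ q := by omega
  obtain ⟨S, hS1, hS2⟩ := expand (FinitePlace.mk v) q hq hq3 t ht
  have ht0' : 0 < FinitePlace.mk v t := FinitePlace.pos_iff.2 ht0
  have hS3 : FinitePlace.mk v S = FinitePlace.mk v t := by
    have h1 : FinitePlace.mk v (S - t) < FinitePlace.mk v t := by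
      refine hS2.trans_lt ?_
      rw [pow_two]
      calc _ < 1 * FinitePlace.mk v t := mul_lt_mul_of_pos_right ht ht0'
        _ = _ := one_mul _
    have h2 := v_eq (FinitePlace.mk v) _ _ h1
    rw [sub_add_cancel] at h2
    exact h2
  have hodd : Odd q := hq.odd_of_ne_two (by omega)
  have e1 : 1 - (1 - t) ^ q = t ^ q + q * S := by
    rw [← hS1, ← neg_sub t 1, hodd.neg_pow]
    ring
  have hp0 : (q : K) ≠ 0 := by exact_mod_cast hq.ne_zero
  obtain ⟨mt, hmt⟩ := v_zpow v t ht0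
  obtain ⟨mp, hmp⟩ := v_zpow v (q : K) hp0
  set N : ℝ := (Ideal.absNorm v.asIdeal : ℝ) with hNdef
  have hN0 : 0 < N := by linarith
  have hmt0 : mt < 0 := by
    rw [hmt, ← zpow_zero N] at ht
    exact (zpow_lt_zpow_iff_right₀ hN).1 ht
  have hn2 : -(Module.finrank ℚ K : ℤ) ≤ mp := by
    have h1 := v_lower v q hq.pos
    rw [hmp] at h1
    have h2 : (N ^ Module.finrank ℚ K)⁻¹ ≤ ((q : ℝ) ^ Module.finrank ℚ K)⁻¹ := by
      have hp1 : (0 : ℝ) < q := by exact_mod_cast hq.pos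
      exact inv_anti₀ (by positivity) (pow_le_pow_left₀ hp1.le hqN _)
    have h3 := h2.trans h1
    rw [← zpow_natCast, ← zpow_neg] at h3
    exact (zpow_le_zpow_iff_right₀ hN).1 h3
  have hcmp : FinitePlace.mk v (t ^ q) < FinitePlace.mk v ((q : K) * S) := by
    rw [map_pow, map_mul, hS3, hmt, hmp, ← zpow_natCast, ← zpow_mul, ← zpow_add₀ hN0.ne']
    refine zpow_lt_zpow_right₀ hN ?_
    have h1 : (Module.finrank ℚ K : ℤ) + 2 < q := by exact_mod_cast hqd
    nlinarith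
  rw [e1, v_eq _ _ _ hcmp, map_mul, hS3]

/-- iteration -/
theorem iter (v : HeightOneSpectrum (𝓞 K)) (q : ℕ) (hq : q.Prime) (hqd : Module.finrank ℚ K + 2 < q)
    (hqv : ((q : ℕ) : 𝓞 K) ∈ v.asIdeal) (t : K) (ht0 : t ≠ 0) (ht : FinitePlace.mk v t < 1) (j : ℕ) :
    FinitePlace.mk v (1 - (1 - t) ^ (q ^ j)) = FinitePlace.mk v (q : K) ^ j * FinitePlace.mk v t := by
  have hp0 : (q : K) ≠ 0 := by exact_mod_cast hq.ne_zero
  have hq0 : 0 < FinitePlace.mk v (q : K) := FinitePlace.pos_iff.2 hp0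
  have ht0' : 0 < FinitePlace.mk v t := FinitePlace.pos_iff.2 ht0
  induction j with
  | zero => simp
  | succ j ih =>
    set t' : K := 1 - (1 - t) ^ (q ^ j) with ht'
    have h1 : (1 - t) ^ (q ^ (j + 1)) = (1 - t') ^ q := by
      rw [ht', sub_sub_cancel, ← pow_mul, pow_succ]
    have h2 : 0 < FinitePlace.mk v t' := by rw [ih]; positivity
    have h3 : FinitePlace.mk v t' < 1 := by
      rw [ih]
      refine lt_of_le_of_lt ?_ ht
      calc _ ≤ 1 * FinitePlace.mk v t :=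
            mul_le_mul_of_nonneg_right (pow_le_one₀ hq0.le (v_nat _ q)) ht0'.le
        _ = _ := one_mul _
    rw [h1, stepB v q hq hqd hqv t' (FinitePlace.pos_iff.1 h2) h3, ih, pow_succ]
    ring

theorem main : S_LOC3 := by
  intro K _ _ n q k x y v hodd hq hn3 hk hkn hqd hqv hxy hx1 hlt
  have hN : (1 : ℝ) < (Ideal.absNorm v.asIdeal : ℝ) := by
    exact_mod_cast NumberField.HeightOneSpectrum.one_lt_absNorm v
  have hqN : (q : ℝ) ≤ (Ideal.absNorm v.asIdeal : ℝ) := by exact_mod_cast le_norm v q hq hqv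
  obtain ⟨r, n', hn', hn⟩ := Nat.exists_eq_pow_mul_and_not_dvd (n := n) (by omega) q hq.ne_one
  have hw1 : FinitePlace.mk v ((n' : ℕ) : K) = 1 := pm_sound K v q n' hq hqv hn'
  -- the order of `y ^ n`
  have hy : FinitePlace.mk v (y ^ n) = FinitePlace.mk v (q : K) ^ r * FinitePlace.mk v (x + 1) := by
    have h0 : y ^ n = 1 - (1 - (1 - (1 - (x + 1)) ^ n')) ^ (q ^ r) := by
      rw [sub_sub_cancel, ← pow_mul, mul_comm n', ← hn, ← hxy,
        show (1 : K) - (x + 1) = -x by ring, hodd.neg_pow]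
      ring
    have h1 := stepA (FinitePlace.mk v) (x + 1) hlt n' hw1
    have h2 : 0 < FinitePlace.mk v (1 - (1 - (x + 1)) ^ n') := by
      rw [h1]; exact FinitePlace.pos_iff.2 hx1
    rw [h0, iter v q hq (by omega) hqv _ (FinitePlace.pos_iff.1 h2) (by rw [h1]; exact hlt) r, h1]
  have hp0 : (q : K) ≠ 0 := by exact_mod_cast hq.ne_zero
  obtain ⟨mt, hmt⟩ := v_zpow v (x + 1) hx1
  obtain ⟨mp, hmp⟩ := v_zpow v (q : K) hp0
  set N : ℝ := (Ideal.absNorm v.asIdeal : ℝ) with hNdef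
  have hN0 : 0 < N := by linarith
  have hmt0 : mt < 0 := by
    rw [hmt, ← zpow_zero N] at hlt
    exact (zpow_lt_zpow_iff_right₀ hN).1 hlt
  have hmp0 : mp ≤ 0 := by
    have h1 := v_nat (FinitePlace.mk v) q
    rw [hmp, ← zpow_zero N] at h1
    exact (zpow_le_zpow_iff_right₀ hN).1 h1
  have hn2 : -(Module.finrank ℚ K : ℤ) ≤ mp := by
    have h1 := v_lower v q hq.pos
    rw [hmp] at h1
    have h2 : (N ^ Module.finrank ℚ K)⁻¹ ≤ ((q : ℝ) ^ Module.finrank ℚ K)⁻¹ := by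
      have hp1 : (0 : ℝ) < q := by exact_mod_cast hq.pos
      exact inv_anti₀ (by positivity) (pow_le_pow_left₀ hp1.le hqN _)
    have h3 := h2.trans h1
    rw [← zpow_natCast, ← zpow_neg] at h3
    exact (zpow_le_zpow_iff_right₀ hN).1 h3
  rw [hmt, hmp, ← zpow_natCast (N ^ mp) r, ← zpow_mul, ← zpow_add₀ hN0.ne'] at hy
  have hy0 : y ≠ 0 := by
    rintro rfl
    rw [zero_pow (by omega), map_zero] at hy
    exact (zpow_pos hN0 _).ne hy
  obtain ⟨my, hmy⟩ := v_zpow v y hy0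
  rw [map_pow, hmy, ← zpow_natCast, ← zpow_mul] at hy
  have h6 : my * n = mp * r + mt := zpow_right_injective₀ hN0 hN.ne' hy
  have hnz : (0 : ℤ) < n := by omega
  have hr0 : (0 : ℤ) ≤ r := Int.natCast_nonneg r
  have h7 : my ≤ -1 := by
    by_contra h
    push Not at h
    have h8 : 0 ≤ my := by omega
    have h9 := mul_nonneg h8 hnz.le
    have h10 : mp * r ≤ 0 := mul_nonpos_of_nonpos_of_nonneg hmp0 hr0
    omega
  have hr : (r : ℤ) * (Module.finrank ℚ K) + k ≤ n := by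
    rcases Nat.eq_zero_or_pos r with h0 | h0
    · rw [h0]
      simpa using (by exact_mod_cast hkn : (k : ℤ) ≤ n)
    · have hn'0 : 1 ≤ n' := Nat.pos_of_ne_zero (by rintro rfl; exact hn' (dvd_zero q))
      have h1 : r * q ≤ q ^ r := by
        obtain ⟨m, rfl⟩ : ∃ m, r = m + 1 := ⟨r - 1, by omega⟩
        rw [pow_succ]
        refine Nat.mul_le_mul_right q ?_
        exact Nat.lt_pow_self hq.one_lt
      have h2 : q ^ r ≤ n := by rw [hn]; exact Nat.le_mul_of_pos_right _ hn'0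
      have h3 : r * (Module.finrank ℚ K + k) ≤ r * q := Nat.mul_le_mul_left r hqd.le
      have h4 : k ≤ r * k := Nat.le_mul_of_pos_left k h0
      have h5 : r * Module.finrank ℚ K + k ≤ n := by
        rw [mul_add] at h3
        omega
      exact_mod_cast h5
  have h8 : mt ≤ -(k : ℤ) := by
    have h9 : my * n ≤ -1 * n := mul_le_mul_of_nonneg_right h7 hnz.le
    have h10 : -(Module.finrank ℚ K : ℤ) * r ≤ mp * r := mul_le_mul_of_nonneg_right hn2 hr0
    nlinarith
  rw [map_inv₀, hmt, ← zpow_neg]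
  have hq0 : (0 : ℝ) ≤ q := Nat.cast_nonneg q
  calc (q : ℝ) ^ k ≤ N ^ k := pow_le_pow_left₀ hq0 hqN k
    _ = N ^ (k : ℤ) := (zpow_natCast _ _).symm
    _ ≤ N ^ (-mt) := zpow_le_zpow_right₀ hN.le (by omega)

end Pool.Agent.H16.FC.LOC3
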