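import Pool.Agent.H16.FC.Stm

set_option autoImplicit false

/-! FC-SHIFT (helper10): the polynomial of `1 / (x + 1)`. -/

namespace Pool.Agent.H16.FC.SHIFT

open Polynomial NumberField IsDedekindDomain Pool.Agent.H16.LP Pool.Agent.H16.FC

/-- one term -/
noncomputable def tm (d i : ℕ) : ℤ[X] := (1 - X) ^ i * X ^ (d - i)

/-- the polynomial -/
noncomputable def F (d : ℕ) (a : Fin (d + 1) → ℤ) : ℤ[X] := ∑ i : Fin (d + 1), C (a i) * tm d i

theorem tm_deg (d i : ℕ) (h : i ≤ d) : (tm d i).natDegree ≤ d := by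
  unfold tm
  refine natDegree_mul_le.trans ?_
  have h1 : ((1 - X : ℤ[X]) ^ i).natDegree ≤ i := by
    refine natDegree_pow_le.trans ?_
    have : (1 - X : ℤ[X]).natDegree ≤ 1 := by
      refine (natDegree_sub_le _ _).trans ?_
      rw [natDegree_one, natDegree_X]
      exact le_rfl
    calc i * (1 - X : ℤ[X]).natDegree ≤ i * 1 := Nat.mul_le_mul_left _ this
      _ = i := mul_one i
  have h2 : ((X : ℤ[X]) ^ (d - i)).natDegree = d - i := natDegree_X_pow _
  omega

theorem F_deg (d : ℕ) (a : Fin (d + 1) → ℤ) : (F d a).natDegree ≤ d := by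
  unfold F
  refine natDegree_sum_le_of_forall_le _ _ fun i _ => ?_
  refine (natDegree_C_mul_le _ _).trans (tm_deg d i (Nat.lt_succ_iff.1 i.2))

theorem F_coeff (d : ℕ) (a : Fin (d + 1) → ℤ) (m : ℕ) :
    (F d a).coeff m = ∑ i : Fin (d + 1), a i * (tm d i).coeff m := by
  unfold F
  rw [finsetSum_coeff]
  exact Finset.sum_congr rfl fun i _ => coeff_C_mul _

theorem tm_top (d i : ℕ) (h : i ≤ d) : (tm d i).coeff d = (-1) ^ i := by
  unfold tm
  rw [coeff_mul_X_pow', if_pos (Nat.sub_le _ _)]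
  have e : d - (d - i) = i := by omega
  rw [e]
  have h1 : (1 - X : ℤ[X]) ^ i = C ((-1) ^ i) * (X - C 1) ^ i := by
    rw [C_pow, ← mul_pow]
    congr 1
    simp
  rw [h1, coeff_C_mul]
  have h2 : ((X - C (1 : ℤ)) ^ i).coeff i = 1 := by
    have h3 := ((monic_X_sub_C (1 : ℤ)).pow i).coeff_natDegree
    rwa [(monic_X_sub_C (1 : ℤ)).natDegree_pow, natDegree_X_sub_C, mul_one] at h3
  rw [h2, mul_one]

theorem tm_low (d i j : ℕ) (hi : i ≤ d) (hj : j < i) : (tm d j).coeff (d - i) = 0 := by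
  unfold tm
  rw [coeff_mul_X_pow', if_neg (by omega)]

theorem tm_diag (d i : ℕ) : (tm d i).coeff (d - i) = 1 := by
  unfold tm
  rw [coeff_mul_X_pow', if_pos le_rfl, Nat.sub_self, coeff_zero_eq_eval_zero]
  simp

theorem dvd_aux (d : ℕ) (a : Fin (d + 1) → ℤ) (q : ℤ) (h : ∀ m, m ≤ d → q ∣ (F d a).coeff m) :
    ∀ (k : ℕ) (i : Fin (d + 1)), d - (i : ℕ) = k → q ∣ a i := by
  intro k
  induction k using Nat.strong_induction_on with
  | _ k ih =>
    intro i hi
    have hid : (i : ℕ) ≤ d := Nat.lt_succ_iff.1 i.2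
    have h1 := h (d - i) (Nat.sub_le _ _)
    rw [F_coeff, ← Finset.add_sum_erase _ _ (Finset.mem_univ i), tm_diag, mul_one] at h1
    refine (Int.dvd_add_left ?_).1 h1
    refine Finset.dvd_sum fun j hj => ?_
    have hne : j ≠ i := Finset.ne_of_mem_erase hj
    have hne' : (j : ℕ) ≠ (i : ℕ) := fun h => hne (Fin.ext h)
    have hjd : (j : ℕ) ≤ d := Nat.lt_succ_iff.1 j.2
    rcases lt_or_gt_of_ne hne' with hlt | hgt
    · rw [tm_low d i j hid hlt, mul_zero]
      exact dvd_zero q
    · exact Dvd.dvd.mul_right (ih (d - j) (by omega) j rfl) _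

theorem main : S_SHIFT := by
  intro d
  refine ⟨fun a m => (F d a).coeff m, fun a => ?_, fun a q h => ?_, ?_⟩
  · show (F d a).coeff (Fin.last d : Fin (d + 1)) = _
    rw [Fin.val_last, F_coeff]
    exact Finset.sum_congr rfl fun i _ => by rw [tm_top d i (Nat.lt_succ_iff.1 i.2)]
  · intro i
    exact dvd_aux d a q (fun m hm => h ⟨m, Nat.lt_succ_of_le hm⟩) _ i rfl
  · intro K _ _ a x hR hx
    refine ⟨hR.deg, ?_, ?_⟩
    · rw [eq_top_iff, ← hR.gen, IntermediateField.adjoin_le_iff, Set.singleton_subset_iff]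
      have h1 : (x + 1)⁻¹ ∈ IntermediateField.adjoin ℚ {(x + 1)⁻¹} :=
        IntermediateField.mem_adjoin_simple_self ℚ _
      have h2 := inv_mem h1
      rw [inv_inv] at h2
      have h3 := sub_mem h2 (one_mem _)
      rwa [add_sub_cancel_right] at h3
    · set t : K := (x + 1)⁻¹ with ht
      have e1 : ∑ i : Fin (d + 1), (((F d a).coeff i : ℤ) : K) * t ^ (i : ℕ) = aeval t (F d a) := by
        rw [aeval_eq_sum_range' (Nat.lt_succ_of_le (F_deg d a)), Finset.sum_range]
        exact Finset.sum_congr rfl fun i _ => by rw [zsmul_eq_mul]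
      have h1 : 1 - t = x * t := by
        rw [ht]
        field_simp
        ring
      have e2 : aeval t (F d a) = t ^ d * ∑ i : Fin (d + 1), (a i : K) * x ^ (i : ℕ) := by
        unfold F tm
        rw [map_sum, Finset.mul_sum]
        refine Finset.sum_congr rfl fun i _ => ?_
        have hi : (i : ℕ) ≤ d := Nat.lt_succ_iff.1 i.2
        rw [map_mul, map_mul, map_pow, map_pow, map_sub, map_one, aeval_X, aeval_C, h1, mul_pow]
        have e3 : t ^ d = t ^ (i : ℕ) * t ^ (d - (i : ℕ)) := by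
          rw [← pow_add]
          congr 1
          omega
        rw [e3]
        simp only [algebraMap_int_eq, eq_intCast]
        ring
      rw [e1, e2, hR.root, mul_zero]

end Pool.Agent.H16.FC.SHIFT
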