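import Pool.Agent.H16.FC.Asm2
import Pool.Agent.H16.FC.LFIN
import Pool.Agent.H16.FC.LOC3
import Pool.Agent.H16.FC.SHIFT
import Pool.Agent.H16.FC.CNTF
import Pool.Agent.H16.LP.MIN
import Pool.Agent.H16.LP.EMB
import Pool.Agent.H16.LP.DIV
import Pool.Agent.H16.LP.SUB
import Pool.Agent.H16.LP.NRM
import Pool.Agent.H16.LP.FIN
import Pool.Agent.H16.LP.POL
import Pool.Agent.H16.LP.PM
import Pool.Agent.H16.LP.RAD
import Pool.Agent.H16.LP.CNT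

/-!
# PROJECT FC (helper16): the theorem without hypotheses
-/

set_option autoImplicit false

namespace Pool.Agent.H16.FC

open Polynomial NumberField IsDedekindDomain Pool.Agent.H16.LP

theorem few_sound (d k : ℕ) (hd : 1 ≤ d) (hk : 3 ≤ k) (ε : ℝ) (hε : 0 < ε)
    (E : ℕ → Set (Fin (d + 1) → ℤ))
    (hE : ∀ H a, a ∈ E H → (∀ i, |a i| ≤ H) ∧ (∀ p : ℕ, p.Prime → ∃ i, ¬ (p : ℤ) ∣ a i) ∧
      ∃ (K : Type) (_ : Field K) (_ : NumberField K) (x : K), Rt K d a x ∧ Sol3 k K x) :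
    ∃ C : ℝ, 0 < C ∧ ∀ H : ℕ, 1 ≤ H →
      ((E H).Finite ∧ ((E H).ncard : ℝ) ≤ C * (H : ℝ) ^ (d + 1 / (k : ℝ) + ε)) ∧
      ∀ g h : Fin (d + 1) → ℤ, ∑ i : Fin (d + 1), h i * (-1) ^ (i : ℕ) ≠ 0 →
        {t : ℤ | (fun i => g i + t * h i) ∈ E H}.Finite ∧
        ({t : ℤ | (fun i => g i + t * h i) ∈ E H}.ncard : ℝ) ≤
          C * (H : ℝ) ^ (1 / (k : ℝ) + ε) :=
  few3 min_sound emb_sound div_sound sub_sound nrm_sound fin_sound pm_sound pol_sound rad_sound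
    cnt_sound LFIN.main LOC3.main SHIFT.main CNTF.main d k hd hk ε hε E hE

/-- the criterion -/
theorem full_sound {d k : ℕ} (hd : 1 ≤ d) (hk : 3 ≤ k) {a : Fin (d + 1) → ℤ}
    (hprim : ∀ q : ℕ, q.Prime → ∃ i, ¬ (q : ℤ) ∣ a i) {K : Type} [Field K] [NumberField K] {x : K}
    (hR : Rt K d a x) (hs : Sol3 k K x) :
    ∑ i : Fin (d + 1), a i * (-1) ^ (i : ℕ) ≠ 0 ∧
      ∀ q : ℕ, q.Prime → d + k < q → (q : ℤ) ∣ ∑ i : Fin (d + 1), a i * (-1) ^ (i : ℕ) →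
        (q : ℤ) ^ k ∣ ∑ i : Fin (d + 1), a i * (-1) ^ (i : ℕ) := by
  obtain ⟨h1, h2⟩ := full3 min_sound
    (nrm_sound min_sound emb_sound
      (fun ι _ s t α c hst hi => sub_sound div_sound ℂ ι s t α c hst hi))
    fin_sound pm_sound pol_sound LFIN.main LOC3.main SHIFT.main hd hk hprim hR hs
  refine ⟨h1, fun q hq hqk => h2 q hq fun h => ?_⟩
  exact absurd ((Nat.Prime.dvd_factorial hq).1 h) (by omega)

end Pool.Agent.H16.FC
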