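import Pool.Agent.H16.FC.Stm

/-! # FC: few points of a line have a `k`-full value at `-1` (after FC-CNT of helper68) -/

set_option autoImplicit false

namespace Pool.Agent.H16.FC.LINE

open Finset Pool.Agent.H16.LP

/-- the value at `-1` -/
def vl {d : ℕ} (a : Fin (d + 1) → ℤ) : ℤ := ∑ i : Fin (d + 1), a i * (-1) ^ (i : ℕ)

theorem vl_le {d H : ℕ} {a : Fin (d + 1) → ℤ} (h : ∀ i, |a i| ≤ H) :
    |vl a| ≤ (((d + 1) * H : ℕ) : ℤ) := by
  unfold vl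
  refine (abs_sum_le_sum_abs _ _).trans ?_
  calc ∑ i : Fin (d + 1), |a i * (-1) ^ (i : ℕ)| ≤ ∑ _i : Fin (d + 1), (H : ℤ) := by
        refine sum_le_sum fun i _ => ?_
        rw [abs_mul, abs_pow, abs_neg, abs_one, one_pow, mul_one]
        exact h i
    _ = _ := by
        rw [sum_const, card_univ, Fintype.card_fin, nsmul_eq_mul]
        push_cast
        ring

theorem vl_line {d : ℕ} (g h : Fin (d + 1) → ℤ) (t : ℤ) :
    vl (fun i => g i + t * h i) = vl g + t * vl h := by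
  unfold vl
  rw [mul_sum, ← sum_add_distrib]
  exact sum_congr rfl fun i _ => by ring

theorem rad_le {m k N : ℕ} {A : ℤ} (hk : 1 ≤ k) (hA : A ≠ 0)
    (h : ∀ q : ℕ, q.Prime → ¬ q ∣ m → (q : ℤ) ∣ A → (q : ℤ) ^ k ∣ A) (hN : |A| ≤ (N : ℤ)) :
    (rad m A.natAbs : ℝ) ≤ (N : ℝ) ^ (1 / (k : ℝ)) := by
  have h1 : ((rad m A.natAbs : ℕ) : ℤ) ^ k ∣ A := by
    unfold rad
    rw [Nat.cast_prod, ← prod_pow]
    refine Finset.prod_dvd_of_coprime ?_ ?_
    · intro p hp q hq hne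
      have hp' := mem_filter.1 (mem_coe.1 hp)
      have hq' := mem_filter.1 (mem_coe.1 hq)
      have h2 : IsCoprime (p : ℤ) (q : ℤ) := Nat.isCoprime_iff_coprime.2
        ((Nat.coprime_primes (Nat.prime_of_mem_primeFactors hp'.1)
          (Nat.prime_of_mem_primeFactors hq'.1)).2 hne)
      exact h2.pow
    · intro q hq
      have hq' := mem_filter.1 hq
      exact h q (Nat.prime_of_mem_primeFactors hq'.1) hq'.2
        (Int.natCast_dvd.2 (Nat.dvd_of_mem_primeFactors hq'.1))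
  have h2 : ((rad m A.natAbs : ℕ) : ℤ) ^ k ≤ N :=
    (Int.le_of_dvd (abs_pos.2 hA) ((dvd_abs _ _).2 h1)).trans hN
  have h3 : ((rad m A.natAbs : ℕ) : ℝ) ^ k ≤ N := by exact_mod_cast h2
  rw [one_div]
  calc ((rad m A.natAbs : ℕ) : ℝ) = (((rad m A.natAbs : ℕ) : ℝ) ^ k) ^ ((k : ℝ)⁻¹) :=
        (Real.pow_rpow_inv_natCast (Nat.cast_nonneg _) (by omega)).symm
    _ ≤ (N : ℝ) ^ ((k : ℝ)⁻¹) := Real.rpow_le_rpow (by positivity) h3 (by positivity)

/-- few values -/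
theorem main (rd : S_RAD) (d k m : ℕ) (ε : ℝ) (hk : 1 ≤ k) (hm : 0 < m) (hε : 0 < ε) :
    ∃ C : ℝ, 0 < C ∧ ∀ H : ℕ, 1 ≤ H → ∀ g h : Fin (d + 1) → ℤ, vl h ≠ 0 → ∀ S : Set ℤ,
      (∀ t ∈ S, (∀ i, |g i + t * h i| ≤ H) ∧ vl (fun i => g i + t * h i) ≠ 0 ∧
        ∀ q : ℕ, q.Prime → ¬ q ∣ m → (q : ℤ) ∣ vl (fun i => g i + t * h i) →
          (q : ℤ) ^ k ∣ vl (fun i => g i + t * h i)) →
      S.Finite ∧ (S.ncard : ℝ) ≤ C * (H : ℝ) ^ (1 / (k : ℝ) + ε) := by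
  obtain ⟨C, hC, hcnt⟩ := rd m ε hm hε
  refine ⟨2 * C * ((d + 1 : ℕ) : ℝ) ^ (1 / (k : ℝ) + ε), by positivity, ?_⟩
  intro H hH g h hh S hS
  set N : ℕ := (d + 1) * H with hN
  have hN1 : 1 ≤ N := Nat.mul_pos (Nat.succ_pos d) hH
  have hN1' : (1 : ℝ) ≤ N := by exact_mod_cast hN1
  have hR : (1 : ℝ) ≤ (N : ℝ) ^ (1 / (k : ℝ)) := Real.one_le_rpow hN1' (by positivity)
  set T : Finset ℕ := (Finset.Icc 1 N).filter (fun n => (rad m n : ℝ) ≤ (N : ℝ) ^ (1 / (k : ℝ)))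
    with hT
  have hTc := hcnt N ((N : ℝ) ^ (1 / (k : ℝ))) hN1 hR
  rw [← hT] at hTc
  set ψ : ℤ → ℤ := fun t => vl (fun i => g i + t * h i) with hψ
  have hinj : Function.Injective ψ := by
    intro s t hst
    simp only [hψ, vl_line] at hst
    exact mul_right_cancel₀ hh (add_left_cancel hst)
  set U : Finset ℤ := T.image (fun n : ℕ => (n : ℤ)) ∪ T.image (fun n : ℕ => -(n : ℤ)) with hU
  have hsub : ψ '' S ⊆ (U : Set ℤ) := by
    rintro _ ⟨t, ht, rfl⟩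
    obtain ⟨h1, h2, h3⟩ := hS t ht
    have hv : |ψ t| ≤ (N : ℤ) := vl_le h1
    have h4 : (ψ t).natAbs ∈ T := by
      rw [hT, mem_filter, Finset.mem_Icc]
      refine ⟨⟨?_, ?_⟩, rad_le hk h2 h3 hv⟩
      · exact Int.natAbs_pos.2 h2
      · have : ((ψ t).natAbs : ℤ) ≤ N := by rw [Int.natCast_natAbs]; exact hv
        exact_mod_cast this
    rw [hU, mem_coe, mem_union, mem_image, mem_image]
    rcases le_total 0 (ψ t) with h5 | h5
    · exact Or.inl ⟨_, h4, Int.natAbs_of_nonneg h5⟩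
    · refine Or.inr ⟨_, h4, ?_⟩
      rw [Int.ofNat_natAbs_of_nonpos h5, neg_neg]
  have hfin : (ψ '' S).Finite := U.finite_toSet.subset hsub
  refine ⟨hfin.of_finite_image hinj.injOn, ?_⟩
  have h2 : S.ncard = (ψ '' S).ncard := (Set.ncard_image_of_injective S hinj).symm
  have h3 : (ψ '' S).ncard ≤ U.card := by
    have := Set.ncard_le_ncard hsub U.finite_toSet
    rwa [Set.ncard_coe_finset] at this
  have h4 : U.card ≤ 2 * T.card := by
    rw [hU]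
    refine (card_union_le _ _).trans ?_
    have e1 := card_image_le (s := T) (f := fun n : ℕ => (n : ℤ))
    have e2 := card_image_le (s := T) (f := fun n : ℕ => -(n : ℤ))
    omega
  have h5 : ((ψ '' S).ncard : ℝ) ≤ 2 * T.card := by exact_mod_cast h3.trans h4
  rw [h2]
  refine h5.trans ?_
  have h6 : (2 : ℝ) * T.card ≤ 2 * (C * (N : ℝ) ^ (1 / (k : ℝ)) * (N : ℝ) ^ ε) := by linarith
  refine h6.trans (le_of_eq ?_)
  have hH0 : (0 : ℝ) < H := by exact_mod_cast hH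
  have hd0 : (0 : ℝ) < ((d + 1 : ℕ) : ℝ) := by positivity
  rw [mul_assoc C, ← Real.rpow_add (by linarith), hN, Nat.cast_mul,
    Real.mul_rpow hd0.le hH0.le]
  ring

end Pool.Agent.H16.FC.LINE
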