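import Pool.Agent.H16.FC.Asm
import Pool.Agent.H16.FC.LINE

/-!
# PROJECT FC (helper16): assembly, all odd exponents, lines
-/

set_option autoImplicit false

namespace Pool.Agent.H16.FC

open Polynomial NumberField IsDedekindDomain Pool.Agent.H16.LP

/-- a nontrivial solution of Fermat's equation with an odd exponent and `a / b = x` -/
def Sol3 (k : ℕ) (K : Type) [Field K] (x : K) : Prop :=
  ∃ n : ℕ, Odd n ∧ k ≤ n ∧ ∃ (L : Type) (_ : Field L) (_ : Algebra K L),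
    FiniteDimensional K L ∧ (Module.finrank K L).Coprime n ∧
      ∃ a b c : L, a ≠ 0 ∧ b ≠ 0 ∧ c ≠ 0 ∧ a ^ n + b ^ n + c ^ n = 0 ∧ a = algebraMap K L x * b

/-- in `K` itself -/
theorem sol_descend3 {k : ℕ} {K : Type} [Field K] {x : K} (h : Sol3 k K x) :
    ∃ (n : ℕ) (y : K), Odd n ∧ k ≤ n ∧ x ^ n + 1 = y ^ n ∧ x + 1 ≠ 0 := by
  obtain ⟨p, hodd, hkp, L, _, _, _, hcop, a, b, c, ha, hb, hc, he, hab⟩ := h
  have h1 : algebraMap K L (x ^ p + 1) = (-c / b) ^ p := by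
    have hbp : b ^ p ≠ 0 := pow_ne_zero _ hb
    rw [div_pow, hodd.neg_pow, eq_div_iff hbp, map_add, map_pow, map_one, add_mul, one_mul,
      ← mul_pow, ← hab]
    linear_combination he
  have hu : x ^ p + 1 ≠ 0 := by
    intro h0
    rw [h0, map_zero] at h1
    exact pow_ne_zero p (div_ne_zero (neg_ne_zero.2 hc) hb) h1.symm
  obtain ⟨y, hy⟩ := pow_of_ext hcop hu h1
  refine ⟨p, y, hodd, hkp, hy, fun h0 => hu ?_⟩
  have hx : x = -1 := by linear_combination h0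
  rw [hx, hodd.neg_one_pow]
  ring

/-- the value at `-1` is `k`-full outside of the small primes -/
theorem full3 (min : S_MIN)
    (nrm : ∀ (K : Type) [Field K] [NumberField K] (d : ℕ) (a : Fin (d + 1) → ℤ) (j : K), Rt K d a j →
      a ≠ 0 → ∀ α β : 𝓞 K, ∃ z : ℤ,
        ((a (Fin.last d) : ℤ) : ℚ) * Algebra.norm ℚ ((α : K) + β * j) = z)
    (fin : S_FIN) (pm : S_PM) (pol : S_POL) (lfin : S_LFIN) (loc : S_LOC3) (shift : S_SHIFT)
    {d k : ℕ} (hd : 1 ≤ d) (hk : 3 ≤ k) {a : Fin (d + 1) → ℤ}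
    (hprim : ∀ q : ℕ, q.Prime → ∃ i, ¬ (q : ℤ) ∣ a i) {K : Type} [Field K] [NumberField K] {x : K}
    (hR : Rt K d a x) (hs : Sol3 k K x) :
    LINE.vl a ≠ 0 ∧
      ∀ q : ℕ, q.Prime → ¬ q ∣ (d + k).factorial → (q : ℤ) ∣ LINE.vl a → (q : ℤ) ^ k ∣ LINE.vl a := by
  obtain ⟨p, y, hodd, hkp, hxy, hx1⟩ := sol_descend3 hs
  obtain ⟨B, hB1, hB2, hB3⟩ := shift d
  have hRB := hB3 K a x hR hx1
  have hprimB : ∀ q : ℕ, q.Prime → ∃ i, ¬ (q : ℤ) ∣ B a i := by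
    intro q hq
    by_contra hcon
    push Not at hcon
    obtain ⟨i, hi⟩ := hprim q hq
    exact hi (hB2 a q hcon i)
  have hB0 : B a ≠ 0 := by
    intro h0
    obtain ⟨i, hi⟩ := hprimB 2 Nat.prime_two
    rw [h0] at hi
    exact hi (dvd_zero _)
  have hA := (min K d (B a) _ hRB hB0).1
  have hBv : B a (Fin.last d) = LINE.vl a := hB1 a
  rw [hBv] at hA
  refine ⟨hA, fun q hq hqm hqA => ?_⟩
  rw [← hBv] at hqA hA ⊢
  obtain ⟨v, hv, hpole⟩ := pol min K d (B a) _ q hRB hq hqA (hprimB q hq)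
  have hlt : FinitePlace.mk v (x + 1) < 1 := by
    rw [map_inv₀] at hpole
    have h0 : 0 < FinitePlace.mk v (x + 1) := by
      rw [FinitePlace.pos_iff]
      exact hx1
    exact (one_lt_inv₀ h0).1 hpole
  have hqk : d + k < q := by
    by_contra hcon
    push Not at hcon
    exact hqm ((Nat.Prime.dvd_factorial hq).2 hcon)
  have h1 := loc K p q k x y v hodd hq (hk.trans hkp) (by omega) hkp
    (by rw [hR.deg]; exact hqk) hv hxy hx1 hlt
  -- the `q`-part of the value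
  obtain ⟨b, hb, hqb⟩ := (Int.finiteMultiplicity_iff.2 ⟨by
      rw [Int.natAbs_natCast]
      exact hq.one_lt.ne', hA⟩ :
        FiniteMultiplicity (q : ℤ) (B a (Fin.last d))).exists_eq_pow_mul_and_not_dvd
  set t := multiplicity (q : ℤ) (B a (Fin.last d)) with ht
  have h2 := lfin nrm fin pm K d (B a) _ q t b hRB hd hq hb hqb v hv
  have hq1 : (1 : ℝ) < q := by exact_mod_cast hq.one_lt
  have h3 : k ≤ t := (pow_le_pow_iff_right₀ hq1).1 (h1.trans h2)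
  rw [hb]
  exact (pow_dvd_pow _ h3).trans (dvd_mul_right _ _)

/-- the exceptional polynomials are few, on lines and altogether -/
theorem few3 (min : S_MIN) (emb : S_EMB) (div : S_DIV) (sub : S_SUB) (nrm : S_NRM) (fin : S_FIN)
    (pm : S_PM) (pol : S_POL) (rd : S_RAD) (cnt : S_CNT) (lfin : S_LFIN) (loc : S_LOC3)
    (shift : S_SHIFT) (cntf : S_CNTF2) (d k : ℕ) (hd : 1 ≤ d) (hk : 3 ≤ k) (ε : ℝ) (hε : 0 < ε)
    (E : ℕ → Set (Fin (d + 1) → ℤ))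
    (hE : ∀ H a, a ∈ E H → (∀ i, |a i| ≤ H) ∧ (∀ p : ℕ, p.Prime → ∃ i, ¬ (p : ℤ) ∣ a i) ∧
      ∃ (K : Type) (_ : Field K) (_ : NumberField K) (x : K), Rt K d a x ∧ Sol3 k K x) :
    ∃ C : ℝ, 0 < C ∧ ∀ H : ℕ, 1 ≤ H →
      ((E H).Finite ∧ ((E H).ncard : ℝ) ≤ C * (H : ℝ) ^ (d + 1 / (k : ℝ) + ε)) ∧
      ∀ g h : Fin (d + 1) → ℤ, ∑ i : Fin (d + 1), h i * (-1) ^ (i : ℕ) ≠ 0 →
        {t : ℤ | (fun i => g i + t * h i) ∈ E H}.Finite ∧
        ({t : ℤ | (fun i => g i + t * h i) ∈ E H}.ncard : ℝ) ≤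
          C * (H : ℝ) ^ (1 / (k : ℝ) + ε) := by
  obtain ⟨C, hC, h⟩ := cntf (cnt rd) d k (d + k).factorial ε (by omega) (Nat.factorial_pos _) hε
  obtain ⟨C', hC', h'⟩ := LINE.main rd d k (d + k).factorial ε (by omega) (Nat.factorial_pos _) hε
  have hfull : ∀ H a, a ∈ E H → (∀ i, |a i| ≤ H) ∧ LINE.vl a ≠ 0 ∧
      ∀ q : ℕ, q.Prime → ¬ q ∣ (d + k).factorial → (q : ℤ) ∣ LINE.vl a →
        (q : ℤ) ^ k ∣ LINE.vl a := by
    intro H a haE
    obtain ⟨hb, hp, K, _, _, x, hR, hs⟩ := hE H a haE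
    obtain ⟨h3, h4⟩ := full3 min
      (nrm min emb (fun ι _ s t α c hst hi => sub div ℂ ι s t α c hst hi))
      fin pm pol lfin loc shift hd hk hp hR hs
    exact ⟨hb, h3, h4⟩
  refine ⟨max C C', lt_max_of_lt_left hC, fun H hH => ⟨?_, fun g u hu => ?_⟩⟩
  · obtain ⟨h1, h2⟩ := h H hH
    have hsub : E H ⊆ {a : Fin (d + 1) → ℤ | (∀ i, |a i| ≤ H) ∧
        ∑ i : Fin (d + 1), a i * (-1) ^ (i : ℕ) ≠ 0 ∧
        ∀ q : ℕ, q.Prime → ¬ q ∣ (d + k).factorial →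
          (q : ℤ) ∣ ∑ i : Fin (d + 1), a i * (-1) ^ (i : ℕ) →
          (q : ℤ) ^ k ∣ ∑ i : Fin (d + 1), a i * (-1) ^ (i : ℕ)} := fun a ha => hfull H a ha
    refine ⟨h1.subset hsub, le_trans (by exact_mod_cast Set.ncard_le_ncard hsub h1) (h2.trans ?_)⟩
    exact mul_le_mul_of_nonneg_right (le_max_left _ _) (by positivity)
  · obtain ⟨h1, h2⟩ := h' H hH g u hu {t : ℤ | (fun i => g i + t * u i) ∈ E H}
      (fun t ht => hfull H _ ht)
    exact ⟨h1, h2.trans (mul_le_mul_of_nonneg_right (le_max_right _ _) (by positivity))⟩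

end Pool.Agent.H16.FC
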