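import Pool.Agent.H16.FC.Stm
import Pool.Agent.H16.LP.PM

/-!
# Stub FC-LOC: the local computation on the Fermat curve
-/

set_option autoImplicit false

namespace Pool.Agent.H16.FC.LOC

open Polynomial NumberField IsDedekindDomain Pool.Agent.H16.LP

variable {K : Type} [Field K] [NumberField K]

theorem v_zpow (v : HeightOneSpectrum (𝓞 K)) (x : K) (hx : x ≠ 0) :
    ∃ m : ℤ, FinitePlace.mk v x = (Ideal.absNorm v.asIdeal : ℝ) ^ m := by
  have hv : v.valuation K x ≠ 0 := ((v.valuation K).ne_zero_iff).2 hx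
  refine ⟨Multiplicative.toAdd (WithZero.unzero hv), ?_⟩
  rw [FinitePlace.mk_apply, FinitePlace.norm_embedding', WithZeroMulInt.toNNReal_neg_apply _ hv]
  push_cast
  rfl

theorem v_nat (w : FinitePlace K) (n : ℕ) : w (n : K) ≤ 1 := by
  rw [← FinitePlace.mk_maximalIdeal w, FinitePlace.mk_apply]
  have h : (n : K) = algebraMap (𝓞 K) K (n : 𝓞 K) := by simp
  rw [h]
  exact FinitePlace.norm_le_one (K := K) w.maximalIdeal (n : 𝓞 K)

theorem v_lower (v : HeightOneSpectrum (𝓞 K)) (p : ℕ) (hp : 0 < p) :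
    ((p : ℝ) ^ Module.finrank ℚ K)⁻¹ ≤ FinitePlace.mk v (p : K) := by
  classical
  have hp0 : (p : K) ≠ 0 := by exact_mod_cast hp.ne'
  have h := FinitePlace.prod_eq_inv_abs_norm (K := K) hp0
  have hn : Algebra.norm ℚ (p : K) = (p : ℚ) ^ Module.finrank ℚ K := by
    have h1 : (p : K) = algebraMap ℚ K (p : ℚ) := by simp
    rw [h1, Algebra.norm_algebraMap]
  rw [hn] at h
  have h2 : (((|(p : ℚ) ^ Module.finrank ℚ K|⁻¹ : ℚ)) : ℝ) = ((p : ℝ) ^ Module.finrank ℚ K)⁻¹ := by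
    rw [abs_of_nonneg (by positivity)]
    push_cast
    rfl
  have hf := FinitePlace.hasFiniteMulSupport (K := K) hp0
  rw [finprod_eq_prod _ hf] at h
  rw [← h2, ← h]
  by_cases hm : FinitePlace.mk v ∈ hf.toFinset
  · rw [← Finset.mul_prod_erase _ _ hm]
    exact mul_le_of_le_one_right (apply_nonneg _ _)
      (Finset.prod_le_one (fun w _ => apply_nonneg _ _) (fun w _ => v_nat w p))
  · have h3 : FinitePlace.mk v (p : K) = 1 := by
      by_contra h3
      exact hm (hf.mem_toFinset.2 h3)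
    rw [h3]
    exact Finset.prod_le_one (fun w _ => apply_nonneg _ _) (fun w _ => v_nat w p)

theorem v_sum (w : FinitePlace K) {ι : Type} (s : Finset ι) (f : ι → K) (B : ℝ) (hB : 0 ≤ B)
    (h : ∀ i ∈ s, w (f i) ≤ B) : w (∑ i ∈ s, f i) ≤ B := by
  classical
  induction s using Finset.induction_on with
  | empty => rw [Finset.sum_empty, map_zero]; exact hB
  | insert a s ha ih =>
    rw [Finset.sum_insert ha]
    exact (FinitePlace.add_le w _ _).trans (max_le (h a (Finset.mem_insert_self a s))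
      (ih fun i hi => h i (Finset.mem_insert_of_mem hi)))

theorem v_eq (w : FinitePlace K) (a b : K) (h : w a < w b) : w (a + b) = w b := by
  refine le_antisymm ((FinitePlace.add_le w a b).trans (max_le h.le le_rfl)) ?_
  have h1 : w b ≤ max (w (a + b)) (w a) := by
    have h2 := FinitePlace.add_le w (a + b) (-a)
    rw [show a + b + -a = b by ring, map_neg_eq_map] at h2
    exact h2
  rcases le_max_iff.1 h1 with h2 | h2
  · exact h2
  · exact absurd h (not_lt.2 h2)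

theorem le_norm (v : HeightOneSpectrum (𝓞 K)) (q : ℕ) (hq : q.Prime) (hqv : ((q : ℕ) : 𝓞 K) ∈ v.asIdeal) :
    q ≤ Ideal.absNorm v.asIdeal := by
  by_contra hlt
  push Not at hlt
  have hN : 1 < Ideal.absNorm v.asIdeal := NumberField.HeightOneSpectrum.one_lt_absNorm v
  have hc : Nat.Coprime q (Ideal.absNorm v.asIdeal) :=
    (Nat.Prime.coprime_iff_not_dvd hq).2 fun h => absurd (Nat.le_of_dvd (by omega) h) (by omega)
  have hm : ((Ideal.absNorm v.asIdeal : ℕ) : 𝓞 K) ∈ v.asIdeal := Ideal.absNorm_mem v.asIdeal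
  obtain ⟨a, b, hab⟩ := Nat.isCoprime_iff_coprime.2 hc
  have h1 : (1 : 𝓞 K) ∈ v.asIdeal := by
    have h2 : ((a * q + b * (Ideal.absNorm v.asIdeal : ℕ) : ℤ) : 𝓞 K) = 1 := by
      rw [hab]
      simp
    rw [← h2]
    push_cast
    exact add_mem (Ideal.mul_mem_left _ _ hqv) (Ideal.mul_mem_left _ _ hm)
  exact v.isPrime.ne_top ((Ideal.eq_top_iff_one _).2 h1)

/-- the expansion of `(t - 1) ^ p + 1` -/
theorem expand (w : FinitePlace K) (p : ℕ) (hp : p.Prime) (hp3 : 3 ≤ p) (t : K) (ht : w t < 1) :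
    ∃ S : K, (t - 1) ^ p + 1 = t ^ p + p * S ∧ w (S - t) ≤ w t ^ 2 := by
  obtain ⟨r, hr⟩ := hp.odd_of_ne_two (by omega)
  have h0 := add_pow_prime_eq hp t (-1)
  have h1 : Finset.Ioo 0 p = insert 1 (Finset.Ioo 1 p) := by
    ext i
    rw [Finset.mem_insert, Finset.mem_Ioo, Finset.mem_Ioo]
    omega
  have h2 : (1 : ℕ) ∉ Finset.Ioo 1 p := by simp
  have h3 : t ^ (1 - 1) * (-1) ^ (p - 1 - 1) * ((p.choose 1 / p : ℕ) : K) = -1 := by
    have e1 : p - 1 - 1 = 2 * (r - 1) + 1 := by omega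
    rw [e1, pow_succ, pow_mul, Nat.choose_one_right, Nat.div_self (by omega)]
    norm_num
  rw [h1, Finset.sum_insert h2, h3] at h0
  refine ⟨t - t * ∑ k ∈ Finset.Ioo 1 p, t ^ (k - 1) * (-1) ^ (p - k - 1) * ((p.choose k / p : ℕ) : K), ?_, ?_⟩
  · rw [sub_eq_add_neg, h0]
    have h1 : ((-1 : K)) ^ p = -1 := by rw [hr, pow_succ, pow_mul]; norm_num
    rw [h1]
    ring
  · rw [sub_sub_cancel_left, map_neg_eq_map, map_mul, pow_two]
    refine mul_le_mul_of_nonneg_left ?_ (apply_nonneg _ _)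
    refine v_sum w _ _ _ (apply_nonneg _ _) ?_
    intro i hi
    rw [Finset.mem_Ioo] at hi
    rw [map_mul, map_mul, map_pow, map_pow, map_neg_eq_map, map_one, one_pow, mul_one]
    calc w t ^ (i - 1) * w (((p.choose i / p : ℕ) : K)) ≤ w t ^ (i - 1) * 1 :=
          mul_le_mul_of_nonneg_left (v_nat w _) (pow_nonneg (apply_nonneg _ _) _)
      _ = w t ^ (i - 1) := mul_one _
      _ ≤ w t ^ 1 := pow_le_pow_of_le_one (apply_nonneg _ _) ht.le (by omega)
      _ = w t := pow_one _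

theorem main : S_LOC2 := by
  intro K _ _ p q k x y v hp hq hp3 hk hkp hpk hqv hxy hx1 hlt
  have hN : (1 : ℝ) < (Ideal.absNorm v.asIdeal : ℝ) := by
    exact_mod_cast NumberField.HeightOneSpectrum.one_lt_absNorm v
  have hqN : (q : ℝ) ≤ (Ideal.absNorm v.asIdeal : ℝ) := by exact_mod_cast le_norm v q hq hqv
  obtain ⟨S, hS1, hS2⟩ := expand (FinitePlace.mk v) p hp hp3 (x + 1) hlt
  rw [add_sub_cancel_right, hxy] at hS1
  have ht0 : 0 < FinitePlace.mk v (x + 1) := FinitePlace.pos_iff.2 hx1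
  have hS3 : FinitePlace.mk v S = FinitePlace.mk v (x + 1) := by
    have h1 : FinitePlace.mk v (S - (x + 1)) < FinitePlace.mk v (x + 1) := by
      refine hS2.trans_lt ?_
      rw [pow_two]
      calc _ < 1 * FinitePlace.mk v (x + 1) := mul_lt_mul_of_pos_right hlt ht0
        _ = _ := one_mul _
    have h2 := v_eq (FinitePlace.mk v) _ _ h1
    rw [sub_add_cancel] at h2
    exact h2
  have hp0 : (p : K) ≠ 0 := by exact_mod_cast hp.ne_zero
  obtain ⟨mt, hmt⟩ := v_zpow v (x + 1) hx1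
  obtain ⟨mp, hmp⟩ := v_zpow v (p : K) hp0
  set N : ℝ := (Ideal.absNorm v.asIdeal : ℝ) with hNdef
  have hN0 : 0 < N := by linarith
  have hmt0 : mt < 0 := by
    rw [hmt, ← zpow_zero N] at hlt
    exact (zpow_lt_zpow_iff_right₀ hN).1 hlt
  have hmp0 : mp ≤ 0 := by
    have h1 := v_nat (FinitePlace.mk v) p
    rw [hmp, ← zpow_zero N] at h1
    exact (zpow_le_zpow_iff_right₀ hN).1 h1
  have hkpz : (k : ℤ) ≤ p := by exact_mod_cast hkp
  obtain ⟨n, hn0, hn2, hnk⟩ : ∃ n : ℤ, 0 ≤ n ∧ -n ≤ mp ∧ n + k ≤ p := by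
    by_cases hqp : q = p
    · refine ⟨Module.finrank ℚ K, by omega, ?_, by exact_mod_cast hpk hqp⟩
      have h1 := v_lower v p hp.pos
      rw [hmp] at h1
      have h2 : (N ^ Module.finrank ℚ K)⁻¹ ≤ ((p : ℝ) ^ Module.finrank ℚ K)⁻¹ := by
        have hp1 : (0 : ℝ) < p := by exact_mod_cast hp.pos
        refine inv_anti₀ (by positivity) (pow_le_pow_left₀ hp1.le ?_ _)
        rw [← hqp]; exact hqN
      have h3 := h2.trans h1
      rw [← zpow_natCast, ← zpow_neg] at h3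
      exact (zpow_le_zpow_iff_right₀ hN).1 h3
    · have h1 := pm_sound K v q p hq hqv (fun h => hqp ((Nat.prime_dvd_prime_iff_eq hq hp).1 h))
      rw [hmp, ← zpow_zero N] at h1
      have h2 : mp = 0 := zpow_right_injective₀ hN0 hN.ne' h1
      exact ⟨0, le_rfl, by omega, by omega⟩
  -- the order of `y ^ p`
  have hcmp : FinitePlace.mk v ((x + 1) ^ p) < FinitePlace.mk v ((p : K) * S) := by
    rw [map_pow, map_mul, hS3, hmt, hmp, ← zpow_natCast, ← zpow_mul, ← zpow_add₀ hN0.ne']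
    refine zpow_lt_zpow_right₀ hN ?_
    have h1 : n + 2 ≤ p := by
      have hk2 : (2 : ℤ) ≤ k := by exact_mod_cast hk
      omega
    nlinarith
  have hy : FinitePlace.mk v (y ^ p) = N ^ (mp + mt) := by
    rw [hS1, v_eq _ _ _ hcmp, map_mul, hS3, hmt, hmp, ← zpow_add₀ hN0.ne']
  have hy0 : y ≠ 0 := by
    rintro rfl
    rw [zero_pow hp.ne_zero, map_zero] at hy
    exact (zpow_pos hN0 _).ne hy
  obtain ⟨my, hmy⟩ := v_zpow v y hy0
  rw [map_pow, hmy, ← zpow_natCast, ← zpow_mul] at hy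
  have h5 := zpow_right_injective₀ hN0 hN.ne' hy
  have h6 : my * p = mp + mt := h5
  have hpz : (0 : ℤ) < p := by exact_mod_cast hp.pos
  have h7 : my ≤ -1 := by
    by_contra h
    push Not at h
    have h8 : 0 ≤ my := by omega
    have h9 := mul_nonneg h8 hpz.le
    omega
  have h8 : mt ≤ -(k : ℤ) := by
    have h9 : my * p ≤ -1 * p := mul_le_mul_of_nonneg_right h7 hpz.le
    omega
  rw [map_inv₀, hmt, ← zpow_neg]
  have hq0 : (0 : ℝ) ≤ q := Nat.cast_nonneg q
  calc (q : ℝ) ^ k ≤ N ^ k := pow_le_pow_left₀ hq0 hqN k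
    _ = N ^ (k : ℤ) := (zpow_natCast _ _).symm
    _ ≤ N ^ (-mt) := zpow_le_zpow_right₀ hN.le (by omega)

end Pool.Agent.H16.FC.LOC
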