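import Pool.Agent.H16.LP.Stm

/-!
# PROJECT FC (helper16, MP_ef6a16_nt): coordinates of points on Fermat curves over all number fields of degree `d`

Hand-in: for all `d ≥ 1`, `k ≥ 2`, `ε > 0` at most `C H ^ (d + 1 / k + ε)` of the primitive integral polynomials of
degree `d` with coefficients `≤ H` have a root `x` of degree `d` with `x ^ p + 1 = y ^ p`, `p ≥ d + k` some prime, `y` in
some extension of `ℚ(x)` of degree prime to `p`.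
Idea: `f(-1)` is the norm of the numerator of `x + 1`, which is a `p`-th power away from `p` and divisible by `p ^ (p - d)`
if it is divisible by `p`; so `f(-1)` is `k`-full.
-/

set_option autoImplicit false

namespace Pool.Agent.H16.FC

open Polynomial NumberField IsDedekindDomain Pool.Agent.H16.LP

/-- FC-LFIN (80 lines).  Local form of `S_FIN`: the pole of `j` at `v` above `q` is at most the `q`-part of `a_d`.
Proof: `b * j` is a root of the integral polynomial with coefficients `a_i b ^ (d - 1 - i)` for `i < d`, and `q ^ t`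
for `i = d`, and generates `K`.  By the first hypothesis (NRM) and `S_FIN` the product over all finite places of
`max (v (b j)) 1` is at most `q ^ t`; each factor is at least `1`, so a single one is `≤ q ^ t`; and `v(b) = 1` above `q`
(`S_PM`, for the natural number `b.natAbs`). -/
def S_LFIN : Prop :=
  (∀ (K : Type) [Field K] [NumberField K] (d : ℕ) (a : Fin (d + 1) → ℤ) (j : K), Rt K d a j →
    a ≠ 0 → ∀ α β : 𝓞 K, ∃ z : ℤ,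
      ((a (Fin.last d) : ℤ) : ℚ) * Algebra.norm ℚ ((α : K) + β * j) = z) → S_FIN → S_PM →
  ∀ (K : Type) [Field K] [NumberField K] (d : ℕ) (a : Fin (d + 1) → ℤ) (j : K) (q t : ℕ) (b : ℤ),
    Rt K d a j → 1 ≤ d → q.Prime → a (Fin.last d) = (q : ℤ) ^ t * b → ¬ (q : ℤ) ∣ b →
    ∀ v : HeightOneSpectrum (𝓞 K), ((q : ℕ) : 𝓞 K) ∈ v.asIdeal → FinitePlace.mk v j ≤ (q : ℝ) ^ t

/-- FC-LOC (120 lines).  Let `t = x + 1`, `|t| < 1` at `v` above `q`.  Then `y ^ p = (t - 1) ^ p + 1 = t * c`,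
`c = t ^ (p-1) - p t ^ (p-2) + ... + p` (all middle coefficients divisible by `p`, `p` is odd).  Let `s ≥ 1`, `e` be the
orders of `t` and of `p` at `v`.  If `q ≠ p` then `e = 0`, `c` is a unit at `v`, and `s` is divisible by `p`, so `s ≥ p`.  If
`q = p` then `1 ≤ e ≤ [K : ℚ] ≤ p - 2 < s (p - 1)`, so `c` has the order `e`, `s + e` is divisible by `p`, and
`s ≥ p - e ≥ k`.  Finally `|t|⁻¹ = (N v) ^ s` and `N v ≥ q`. -/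
def S_LOC : Prop :=
  ∀ (K : Type) [Field K] [NumberField K] (p q k : ℕ) (x y : K) (v : HeightOneSpectrum (𝓞 K)),
    p.Prime → q.Prime → Module.finrank ℚ K + k ≤ p → 2 ≤ k → ((q : ℕ) : 𝓞 K) ∈ v.asIdeal →
    x ^ p + 1 = y ^ p → x + 1 ≠ 0 → FinitePlace.mk v (x + 1) < 1 →
    (q : ℝ) ^ k ≤ FinitePlace.mk v (x + 1)⁻¹

/-- FC-LOC, STRONGER FORM (please prove this one; the same proof: in the case `q ≠ p` only `k ≤ p` is used, in the case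
`q = p` the bound `[K : ℚ] + k ≤ p`). -/
def S_LOC2 : Prop :=
  ∀ (K : Type) [Field K] [NumberField K] (p q k : ℕ) (x y : K) (v : HeightOneSpectrum (𝓞 K)),
    p.Prime → q.Prime → 3 ≤ p → 2 ≤ k → k ≤ p → (q = p → Module.finrank ℚ K + k ≤ p) →
    ((q : ℕ) : 𝓞 K) ∈ v.asIdeal →
    x ^ p + 1 = y ^ p → x + 1 ≠ 0 → FinitePlace.mk v (x + 1) < 1 →
    (q : ℝ) ^ k ≤ FinitePlace.mk v (x + 1)⁻¹

/-- FC-LOC3 (80 lines; optional strengthening to all odd exponents).  Let `n = q ^ r n'` with `q ∤ n'`, `t = x + 1`,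
`s = ord t ≥ 1`, `e = ord q ≤ [K : ℚ]`.  `y ^ n = x ^ n + 1 = 1 - (1 - t) ^ n`.  `(1 - t) ^ n' = 1 - t₁` with `ord t₁ = s`
(`t₁ = n' t + O(t ^ 2)`), and taking `q`-th powers adds `e` to the order each time, as `e < q - 1` (file LOC, `expand`).
So `ord (y ^ n) = s + r e` is divisible by `n`, and `s ≥ n - r e ≥ n - r d > r k ≥ k` for `r ≥ 1`, as
`n ≥ q ^ r ≥ r q ≥ r (d + k + 1)`; for `r = 0` it is `s ≥ n ≥ k`. -/
def S_LOC3 : Prop :=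
  ∀ (K : Type) [Field K] [NumberField K] (n q k : ℕ) (x y : K) (v : HeightOneSpectrum (𝓞 K)),
    Odd n → q.Prime → 3 ≤ n → 2 ≤ k → k ≤ n → Module.finrank ℚ K + k < q →
    ((q : ℕ) : 𝓞 K) ∈ v.asIdeal →
    x ^ n + 1 = y ^ n → x + 1 ≠ 0 → FinitePlace.mk v (x + 1) < 1 →
    (q : ℝ) ^ k ≤ FinitePlace.mk v (x + 1)⁻¹

/-- FC-SHIFT (80 lines).  The polynomial of `1 / (x + 1)`: `∑ B_m X ^ m = ∑ a_i (1 - X) ^ i X ^ (d - i)`; conversely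
`∑ a_i X ^ i = ∑ B_m (X + 1) ^ (d - m)`. -/
def S_SHIFT : Prop :=
  ∀ d : ℕ, ∃ B : (Fin (d + 1) → ℤ) → (Fin (d + 1) → ℤ),
    (∀ a, B a (Fin.last d) = ∑ i : Fin (d + 1), a i * (-1) ^ (i : ℕ)) ∧
    (∀ (a : Fin (d + 1) → ℤ) (q : ℤ), (∀ i, q ∣ B a i) → ∀ i, q ∣ a i) ∧
    ∀ (K : Type) [Field K] [NumberField K] (a : Fin (d + 1) → ℤ) (x : K), Rt K d a x → x + 1 ≠ 0 →
      Rt K d (B a) (x + 1)⁻¹

/-- FC-CNT (80 lines, from `S_CNT` without its hypothesis).  Few coefficient vectors have a `k`-full value at `-1`.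
Proof: `a ↦ (a_1, …, a_d, A)`, `A = ∑ a_i (-1) ^ i`, is injective into the vectors with entries at most `(d + 1) H`,
and `rad 1 |A| ≤ |A| ^ (1/k) ≤ ((d + 1) H) ^ (1/k)`, as the `k`-th power of the radical divides `A`.  Use CNT with
`m = 1`, `ρ = 1/k`, `c = 1`. -/
def S_CNTF : Prop :=
  (∀ (d m : ℕ) (ρ ε c : ℝ), 0 < m → 0 ≤ ρ → 0 < ε → 1 ≤ c → ∃ C : ℝ, 0 < C ∧ ∀ H : ℕ, 1 ≤ H →
    {a : Fin (d + 1) → ℤ | (∀ i, |a i| ≤ H) ∧ a (Fin.last d) ≠ 0 ∧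
      (rad m (a (Fin.last d)).natAbs : ℝ) ≤ c * (H : ℝ) ^ ρ}.Finite ∧
    ({a : Fin (d + 1) → ℤ | (∀ i, |a i| ≤ H) ∧ a (Fin.last d) ≠ 0 ∧
      (rad m (a (Fin.last d)).natAbs : ℝ) ≤ c * (H : ℝ) ^ ρ}.ncard : ℝ) ≤
      C * (H : ℝ) ^ (d + ρ + ε)) →
  ∀ (d k : ℕ) (ε : ℝ), 1 ≤ k → 0 < ε → ∃ C : ℝ, 0 < C ∧ ∀ H : ℕ, 1 ≤ H →
    {a : Fin (d + 1) → ℤ | (∀ i, |a i| ≤ H) ∧ ∑ i : Fin (d + 1), a i * (-1) ^ (i : ℕ) ≠ 0 ∧
      ∀ q : ℕ, q.Prime → (q : ℤ) ∣ ∑ i : Fin (d + 1), a i * (-1) ^ (i : ℕ) →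
        (q : ℤ) ^ k ∣ ∑ i : Fin (d + 1), a i * (-1) ^ (i : ℕ)}.Finite ∧
    ({a : Fin (d + 1) → ℤ | (∀ i, |a i| ≤ H) ∧ ∑ i : Fin (d + 1), a i * (-1) ^ (i : ℕ) ≠ 0 ∧
      ∀ q : ℕ, q.Prime → (q : ℤ) ∣ ∑ i : Fin (d + 1), a i * (-1) ^ (i : ℕ) →
        (q : ℤ) ^ k ∣ ∑ i : Fin (d + 1), a i * (-1) ^ (i : ℕ)}.ncard : ℝ) ≤
      C * (H : ℝ) ^ (d + 1 / (k : ℝ) + ε)

/-- FC-CNT, STRONGER FORM (please prove this one; the same proof, only the primes not dividing `m` are considered, use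
CNT with this `m`). -/
def S_CNTF2 : Prop :=
  (∀ (d m : ℕ) (ρ ε c : ℝ), 0 < m → 0 ≤ ρ → 0 < ε → 1 ≤ c → ∃ C : ℝ, 0 < C ∧ ∀ H : ℕ, 1 ≤ H →
    {a : Fin (d + 1) → ℤ | (∀ i, |a i| ≤ H) ∧ a (Fin.last d) ≠ 0 ∧
      (rad m (a (Fin.last d)).natAbs : ℝ) ≤ c * (H : ℝ) ^ ρ}.Finite ∧
    ({a : Fin (d + 1) → ℤ | (∀ i, |a i| ≤ H) ∧ a (Fin.last d) ≠ 0 ∧
      (rad m (a (Fin.last d)).natAbs : ℝ) ≤ c * (H : ℝ) ^ ρ}.ncard : ℝ) ≤
      C * (H : ℝ) ^ (d + ρ + ε)) →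
  ∀ (d k m : ℕ) (ε : ℝ), 1 ≤ k → 0 < m → 0 < ε → ∃ C : ℝ, 0 < C ∧ ∀ H : ℕ, 1 ≤ H →
    {a : Fin (d + 1) → ℤ | (∀ i, |a i| ≤ H) ∧ ∑ i : Fin (d + 1), a i * (-1) ^ (i : ℕ) ≠ 0 ∧
      ∀ q : ℕ, q.Prime → ¬ q ∣ m → (q : ℤ) ∣ ∑ i : Fin (d + 1), a i * (-1) ^ (i : ℕ) →
        (q : ℤ) ^ k ∣ ∑ i : Fin (d + 1), a i * (-1) ^ (i : ℕ)}.Finite ∧
    ({a : Fin (d + 1) → ℤ | (∀ i, |a i| ≤ H) ∧ ∑ i : Fin (d + 1), a i * (-1) ^ (i : ℕ) ≠ 0 ∧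
      ∀ q : ℕ, q.Prime → ¬ q ∣ m → (q : ℤ) ∣ ∑ i : Fin (d + 1), a i * (-1) ^ (i : ℕ) →
        (q : ℤ) ^ k ∣ ∑ i : Fin (d + 1), a i * (-1) ^ (i : ℕ)}.ncard : ℝ) ≤
      C * (H : ℝ) ^ (d + 1 / (k : ℝ) + ε)

end Pool.Agent.H16.FC
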